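import Mathlib

/-!
Differential rings without proper principal differential ideals: algebraic elements which are
primitives or exponentials.
-/

set_option autoImplicit false

namespace Pool.Agent.Y377.EL

open Polynomial

variable {K : Type} [Field K] [Algebra ℂ K]

/-- the derivation on a stable subring -/
noncomputable def dres (D : Derivation ℂ K K) (R : Subalgebra ℂ K) (hR : ∀ x ∈ R, D x ∈ R) :
    Derivation ℂ R R :=
  Derivation.mk' { toFun := fun x => ⟨D x, hR x x.2⟩
                   map_add' := fun x y => Subtype.ext (by simp)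
                   map_smul' := fun c x => Subtype.ext (by simp) }
    (fun x y => Subtype.ext (by simp))

theorem dres_coe (D : Derivation ℂ K K) (R : Subalgebra ℂ K) (hR : ∀ x ∈ R, D x ∈ R) (x : R) :
    ((dres D R hR x : R) : K) = D x := rfl

/-- the derivation applied to the coefficients -/
noncomputable def dc {R : Subalgebra ℂ K} (d : Derivation ℂ R R) (p : R[X]) : R[X] :=
  ∑ i ∈ Finset.range (p.natDegree + 1), C (d (p.coeff i)) * X ^ i

theorem coeff_dc {R : Subalgebra ℂ K} (d : Derivation ℂ R R) (p : R[X]) (n : ℕ) :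
    (dc d p).coeff n = d (p.coeff n) := by
  unfold dc
  rw [finsetSum_coeff]
  simp only [coeff_C_mul, coeff_X_pow]
  by_cases h : n < p.natDegree + 1
  · rw [Finset.sum_eq_single n]
    · simp
    · intro b _ hb
      rw [if_neg (Ne.symm hb), mul_zero]
    · intro h2
      exact absurd (Finset.mem_range.2 h) h2
  · rw [Finset.sum_eq_zero]
    · rw [coeff_eq_zero_of_natDegree_lt (by omega), map_zero]
    · intro b hb
      have := Finset.mem_range.1 hb
      rw [if_neg (by omega), mul_zero]

theorem D_aeval (D : Derivation ℂ K K) (R : Subalgebra ℂ K) (hR : ∀ x ∈ R, D x ∈ R) (t : K)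
    (p : R[X]) : D (aeval t p) = aeval t (dc (dres D R hR) p) + aeval t (derivative p) * D t := by
  have h1 : aeval t (dc (dres D R hR) p) =
      ∑ i ∈ Finset.range (p.natDegree + 1), D (p.coeff i) * t ^ i := by
    unfold dc
    rw [map_sum]
    refine Finset.sum_congr rfl fun i _ => ?_
    rw [map_mul, map_pow, aeval_C, aeval_X]
    rfl
  have h2 : aeval t (derivative p) =
      ∑ i ∈ Finset.range (p.natDegree + 1), (p.coeff i : K) * ((i : K) * t ^ (i - 1)) := by
    rw [derivative_apply, sum_over_range' _ _ (p.natDegree + 1) (by omega), map_sum]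
    · refine Finset.sum_congr rfl fun i _ => ?_
      rw [map_mul, map_pow, aeval_C, aeval_X, map_mul, map_natCast, mul_assoc]
      rfl
    · intro n
      simp
  rw [h1, h2, aeval_eq_sum_range, map_sum, Finset.sum_mul, ← Finset.sum_add_distrib]
  refine Finset.sum_congr rfl fun i _ => ?_
  rw [Algebra.smul_def]
  change D ((p.coeff i : K) * t ^ i) = _
  rw [D.leibniz, D.leibniz_pow]
  simp only [smul_eq_mul, nsmul_eq_mul]
  ring

/-- The property of the rings of the tower. -/
structure Good (D : Derivation ℂ K K) (R : Subalgebra ℂ K) : Prop where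
  stab : ∀ x ∈ R, D x ∈ R
  ufd : UniqueFactorizationMonoid R
  darb : ∀ a q : K, a ∈ R → q ∈ R → a ≠ 0 → D a = q * a → a⁻¹ ∈ R

theorem Good.reduce {D : Derivation ℂ K K} {R : Subalgebra ℂ K} (h : Good D R) {a b : K}
    (ha : a ∈ R) (hb : b ∈ R) (hb0 : b ≠ 0) :
    ∃ a' b' : R, IsRelPrime a' b' ∧ (b' : K) ≠ 0 ∧ a / b = (a' : K) / b' := by
  have := h.ufd
  obtain ⟨a', b', c', h1, h2, h3⟩ := UniqueFactorizationMonoid.exists_reduced_factors'
    (⟨a, ha⟩ : R) (⟨b, hb⟩ : R) (fun h0 => hb0 (congrArg Subtype.val h0))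
  have e2 : (c' : K) * a' = a := congrArg Subtype.val h2
  have e3 : (c' : K) * b' = b := congrArg Subtype.val h3
  have hc0 : (c' : K) ≠ 0 := by
    intro h0
    rw [h0, zero_mul] at e3
    exact hb0 e3.symm
  have hb0' : (b' : K) ≠ 0 := by
    intro h0
    rw [h0, mul_zero] at e3
    exact hb0 e3.symm
  refine ⟨a', b', h1, hb0', ?_⟩
  rw [← e2, ← e3, mul_div_mul_left _ _ hc0]

/-- primitives in the fraction field -/
theorem Good.prim {D : Derivation ℂ K K} {R : Subalgebra ℂ K} (h : Good D R) {a b : K}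
    (ha : a ∈ R) (hb : b ∈ R) (hb0 : b ≠ 0) (hD : D (a / b) ∈ R) : a / b ∈ R := by
  obtain ⟨a', b', h1, hb0', e⟩ := h.reduce ha hb hb0
  have := h.ufd
  rw [e] at hD ⊢
  have e1 : D ((a' : K) / b') = (D a' * b' - a' * D b') / (b' : K) ^ 2 := by
    rw [Derivation.leibniz_div]
    simp only [smul_eq_mul]
    ring
  set g : R := ⟨D ((a' : K) / b'), hD⟩ with hg
  have e2 : (D a' * b' - a' * D b' : K) = g * (b' : K) ^ 2 := by
    rw [hg]
    simp only
    rw [e1, div_mul_cancel₀ _ (pow_ne_zero 2 hb0')]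
  have h2 : b' ∣ a' * ⟨D b', h.stab _ b'.2⟩ := by
    refine ⟨⟨D a', h.stab _ a'.2⟩ - g * b', Subtype.ext ?_⟩
    change (a' : K) * D b' = (b' : K) * (D a' - g * b')
    linear_combination -e2
  obtain ⟨q, hq⟩ := h1.symm.dvd_of_dvd_mul_left h2
  have e3 : D (b' : K) = q * b' := by
    have := congrArg Subtype.val hq
    change D (b' : K) = (b' : K) * q at this
    rw [this, mul_comm]
  have h3 := h.darb b' q b'.2 q.2 hb0' e3
  rw [div_eq_mul_inv]
  exact R.mul_mem a'.2 h3

/-- exponentials in the fraction field -/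
theorem Good.expo {D : Derivation ℂ K K} {R : Subalgebra ℂ K} (h : Good D R) {a b g : K}
    (ha : a ∈ R) (hb : b ∈ R) (ha0 : a ≠ 0) (hb0 : b ≠ 0) (hg : g ∈ R)
    (hD : D (a / b) = g * (a / b)) : a / b ∈ R ∧ (a / b)⁻¹ ∈ R := by
  obtain ⟨a', b', h1, hb0', e⟩ := h.reduce ha hb hb0
  have := h.ufd
  have hne : a / b ≠ 0 := div_ne_zero ha0 hb0
  rw [e] at hD hne ⊢
  have ha0' : (a' : K) ≠ 0 := by
    intro h0
    rw [h0, zero_div] at hne
    exact hne rfl
  have e1 : D ((a' : K) / b') = (D a' * b' - a' * D b') / (b' : K) ^ 2 := by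
    rw [Derivation.leibniz_div]
    simp only [smul_eq_mul]
    ring
  have e2 : (D a' * b' - a' * D b' : K) = g * a' * b' := by
    rw [e1] at hD
    field_simp at hD
    linear_combination hD
  have h2 : b' ∣ a' * ⟨D b', h.stab _ b'.2⟩ := by
    refine ⟨⟨D a', h.stab _ a'.2⟩ - ⟨g, hg⟩ * a', Subtype.ext ?_⟩
    change (a' : K) * D b' = (b' : K) * (D a' - g * a')
    linear_combination -e2
  have h3 : a' ∣ ⟨D a', h.stab _ a'.2⟩ * b' := by
    refine ⟨⟨D b', h.stab _ b'.2⟩ + ⟨g, hg⟩ * b', Subtype.ext ?_⟩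
    change D (a' : K) * b' = (a' : K) * (D b' + g * b')
    linear_combination e2
  obtain ⟨q, hq⟩ := h1.symm.dvd_of_dvd_mul_left h2
  obtain ⟨r, hr⟩ := h1.dvd_of_dvd_mul_right h3
  have e3 : D (b' : K) = q * b' := by
    have := congrArg Subtype.val hq
    change D (b' : K) = (b' : K) * q at this
    rw [this, mul_comm]
  have e4 : D (a' : K) = r * a' := by
    have := congrArg Subtype.val hr
    change D (a' : K) = (a' : K) * r at this
    rw [this, mul_comm]
  have h4 := h.darb b' q b'.2 q.2 hb0' e3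
  have h5 := h.darb a' r a'.2 r.2 ha0' e4
  rw [inv_div, div_eq_mul_inv, div_eq_mul_inv]
  exact ⟨R.mul_mem a'.2 h4, R.mul_mem b'.2 h5⟩

/-- an algebraic element has an equation of minimal degree -/
theorem exists_min {R : Subalgebra ℂ K} {F : K} (hF : IsAlgebraic R F) :
    ∃ P : R[X], P ≠ 0 ∧ aeval F P = 0 ∧ 1 ≤ P.natDegree ∧
      ∀ Q : R[X], aeval F Q = 0 → (∀ n, P.natDegree ≤ n → Q.coeff n = 0) → Q = 0 := by
  classical
  have hex : ∃ n, ∃ P : R[X], P ≠ 0 ∧ aeval F P = 0 ∧ P.natDegree = n := by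
    obtain ⟨P, h1, h2⟩ := hF
    exact ⟨_, P, h1, h2, rfl⟩
  obtain ⟨P, hP0, hP, hPn⟩ := Nat.find_spec hex
  have hd : 1 ≤ P.natDegree := by
    by_contra hlt
    have h0 : P.natDegree = 0 := by omega
    rw [eq_C_of_natDegree_eq_zero h0, aeval_C] at hP
    apply hP0
    rw [eq_C_of_natDegree_eq_zero h0]
    have : P.coeff 0 = 0 := Subtype.ext hP
    rw [this, map_zero]
  refine ⟨P, hP0, hP, hd, fun Q hQ hn => ?_⟩
  by_contra hQ0
  have h1 : Q.natDegree < P.natDegree := by
    by_contra hge
    have h2 := hn Q.natDegree (by omega)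
    exact hQ0 (leadingCoeff_eq_zero.1 h2)
  have h3 := Nat.find_min' hex ⟨Q, hQ0, hQ, rfl⟩
  omega

theorem inj_aeval {R : Subalgebra ℂ K} {t : K} (ht : Transcendental R t) {p q : R[X]}
    (h : aeval t p = aeval t q) : p = q :=
  (transcendental_iff_injective.1 ht) h

/-- **Algebraic primitives.** -/
theorem Good.alg_prim {D : Derivation ℂ K K} {R : Subalgebra ℂ K} (h : Good D R)
    (hC : ∀ x, D x = 0 → ∃ c : ℂ, x = algebraMap ℂ K c) {F : K} (hF : IsAlgebraic R F)
    (hD : D F ∈ R) : F ∈ R := by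
  have hch : CharZero K := charZero_of_injective_algebraMap (algebraMap ℂ K).injective
  obtain ⟨P, hP0, hP, hd, hmin⟩ := exists_min hF
  set d := dres D R h.stab with hdd
  set b : R := ⟨D F, hD⟩ with hb
  set N := P.natDegree with hN
  set lc := P.coeff N with hlc
  have hlc0 : lc ≠ 0 := by
    rw [hlc, hN]
    exact fun h0 => hP0 (leadingCoeff_eq_zero.1 h0)
  have hlc0' : (lc : K) ≠ 0 := fun h0 => hlc0 (Subtype.ext h0)
  have hQ : C lc * (dc d P + C b * derivative P) - C (d lc) * P = 0 := by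
    apply hmin
    · have h1 := D_aeval D R h.stab F P
      rw [hP, map_zero] at h1
      rw [map_sub, map_mul, map_mul, hP, mul_zero, sub_zero, map_add, map_mul, aeval_C, aeval_C]
      have h2 : (algebraMap R K b) = D F := rfl
      rw [h2, mul_comm (D F), ← h1, mul_zero]
    · intro n hn
      rw [coeff_sub, coeff_C_mul, coeff_C_mul, coeff_add, coeff_C_mul, coeff_dc,
        coeff_derivative]
      have h1 : P.coeff (n + 1) = 0 := coeff_eq_zero_of_natDegree_lt (by omega)
      rw [h1]
      rcases Nat.lt_or_ge N n with h2 | h2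
      · have h3 : P.coeff n = 0 := coeff_eq_zero_of_natDegree_lt (by omega)
        rw [h3]
        simp
      · have h3 : n = N := by omega
        rw [h3, ← hlc]
        ring
  have hc := congrArg (fun q => coeff q (N - 1)) hQ
  simp only [coeff_sub, coeff_C_mul, coeff_add, coeff_dc, coeff_derivative, coeff_zero] at hc
  have hN1 : N - 1 + 1 = N := by omega
  rw [hN1, ← hlc] at hc
  set e := P.coeff (N - 1) with he
  have hc' : (lc : K) * (D e + D F * (lc * N)) - D lc * e = 0 := by
    have h1 := congrArg Subtype.val hc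
    have h2 : ((N - 1 : ℕ) : K) + 1 = N := by
      exact_mod_cast congrArg (Nat.cast : ℕ → K) hN1
    change (lc : K) * (D e + D F * (lc * (((N - 1 : ℕ) : K) + 1))) - D lc * e = 0 at h1
    rw [h2] at h1
    exact h1
  have hN0 : (N : K) ≠ 0 := by
    rw [Nat.cast_ne_zero]
    omega
  have hb0 : (N : K) * lc ≠ 0 := mul_ne_zero hN0 hlc0'
  have hDN : D (N : K) = 0 := by
    rw [← map_natCast (algebraMap ℂ K)]
    exact D.map_algebraMap _
  have hDe : D ((e : K) / (N * lc)) = - D F := by
    rw [Derivation.leibniz_div, D.leibniz, hDN]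
    simp only [smul_eq_mul]
    field_simp
    linear_combination (N : K) * hc'
  have hNl : (N : K) * lc ∈ R := R.mul_mem (natCast_mem R N) lc.2
  have h4 := h.prim e.2 hNl hb0 (by rw [hDe]; exact R.neg_mem hD)
  obtain ⟨c, hc2⟩ := hC (F + (e : K) / (N * lc)) (by rw [map_add, hDe, add_neg_cancel])
  have h5 : F = algebraMap ℂ K c - (e : K) / (N * lc) := by
    rw [← hc2]
    ring
  rw [h5]
  exact R.sub_mem (R.algebraMap_mem c) h4

/-- **Algebraic exponentials.** -/
theorem Good.alg_exp {D : Derivation ℂ K K} {R : Subalgebra ℂ K} (h : Good D R)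
    (hC : ∀ x, D x = 0 → ∃ c : ℂ, x = algebraMap ℂ K c) {y g : K} (hy : IsAlgebraic R y)
    (hy0 : y ≠ 0) (hg : g ∈ R) (hD : D y = g * y) :
    ∃ k : ℕ, 0 < k ∧ y ^ k ∈ R ∧ (y ^ k)⁻¹ ∈ R := by
  have hch : CharZero K := charZero_of_injective_algebraMap (algebraMap ℂ K).injective
  obtain ⟨P, hP0, hP, hd, hmin⟩ := exists_min hy
  set d := dres D R h.stab with hdd
  set b : R := ⟨g, hg⟩ with hb
  set N := P.natDegree with hN
  set lc := P.coeff N with hlc
  have hlc0 : lc ≠ 0 := by
    rw [hlc, hN]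
    exact fun h0 => hP0 (leadingCoeff_eq_zero.1 h0)
  have hlc0' : (lc : K) ≠ 0 := fun h0 => hlc0 (Subtype.ext h0)
  have hQ : C lc * (dc d P + C b * (X * derivative P)) - C (d lc + N * b * lc) * P = 0 := by
    apply hmin
    · have h1 := D_aeval D R h.stab y P
      rw [hP, map_zero] at h1
      rw [map_sub, map_mul, map_mul, hP, mul_zero, sub_zero, map_add, map_mul, map_mul, aeval_C,
        aeval_C, aeval_X]
      have h2 : (algebraMap R K b) = g := rfl
      rw [h2]
      have h3 : (aeval y) (dc d P) + g * (y * (aeval y) (derivative P)) = 0 := by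
        rw [h1, hD]
        ring
      rw [h3, mul_zero]
    · intro n hn
      rw [coeff_sub, coeff_C_mul, coeff_C_mul, coeff_add, coeff_C_mul, coeff_dc]
      have hn0 : n = (n - 1) + 1 := by omega
      rcases Nat.lt_or_ge N n with h2 | h2
      · have h3 : P.coeff n = 0 := coeff_eq_zero_of_natDegree_lt (by omega)
        have h4 : (X * derivative P).coeff n = 0 := by
          rw [hn0, coeff_X_mul, coeff_derivative, ← hn0, h3, zero_mul]
        rw [h3, h4]
        simp
      · have h3 : n = N := by omega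
        have h4 : (X * derivative P).coeff n = n * P.coeff n := by
          rw [hn0, coeff_X_mul, coeff_derivative]
          push_cast
          ring
        rw [h4, h3, ← hlc]
        ring
  have hc := congrArg (fun q => coeff q 0) hQ
  simp only [coeff_sub, coeff_add, coeff_dc, coeff_zero, mul_coeff_zero, coeff_X_zero,
    zero_mul, mul_zero, add_zero, coeff_C_zero] at hc
  set e := P.coeff 0 with he
  have he0 : (e : K) ≠ 0 := by
    intro h0
    have h1 : e = 0 := Subtype.ext h0
    have h2 : X ∣ P := X_dvd_iff.2 h1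
    obtain ⟨Q, hQ2⟩ := h2
    have h3 : aeval y Q = 0 := by
      rw [hQ2, map_mul, aeval_X] at hP
      exact (mul_eq_zero.1 hP).resolve_left hy0
    have h4 : Q = 0 := by
      apply hmin Q h3
      intro n hn
      have h5 : P.coeff (n + 1) = Q.coeff n := by rw [hQ2, coeff_X_mul]
      rw [← h5]
      exact coeff_eq_zero_of_natDegree_lt (by omega)
    rw [h4, mul_zero] at hQ2
    exact hP0 hQ2
  have hc' : (lc : K) * D e - (D lc + N * g * lc) * e = 0 := by
    have h1 := congrArg Subtype.val hc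
    exact h1
  have hDe : D ((e : K) / lc) = (N * g) * ((e : K) / lc) := by
    rw [Derivation.leibniz_div]
    simp only [smul_eq_mul]
    field_simp
    linear_combination hc'
  have hNg : (N : K) * g ∈ R := R.mul_mem (natCast_mem R N) hg
  obtain ⟨h4, h5⟩ := h.expo e.2 lc.2 he0 hlc0' hNg hDe
  have hx0 : (e : K) / lc ≠ 0 := div_ne_zero he0 hlc0'
  have hDy : D (y ^ N) = (N * g) * y ^ N := by
    rw [D.leibniz_pow, hD]
    simp only [smul_eq_mul, nsmul_eq_mul]
    have : y ^ N = y ^ (N - 1) * y := by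
      rw [← pow_succ]
      congr 1
      omega
    rw [this]
    ring
  obtain ⟨c, hc2⟩ := hC (y ^ N / ((e : K) / lc)) (by
    rw [Derivation.leibniz_div, hDe, hDy]
    simp only [smul_eq_mul]
    ring)
  have h6 : y ^ N = algebraMap ℂ K c * ((e : K) / lc) := by
    rw [← hc2, div_mul_cancel₀ _ hx0]
  refine ⟨N, by omega, ?_, ?_⟩
  · rw [h6]
    exact R.mul_mem (R.algebraMap_mem c) h4
  · rw [h6, mul_inv, ← map_inv₀]
    exact R.mul_mem (R.algebraMap_mem _) h5

end Pool.Agent.Y377.EL
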