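import Pool.Agent.Y377.EL.Alg

/-!
Adjoining transcendental primitives and exponentials.
-/

set_option autoImplicit false

namespace Pool.Agent.Y377.EL

open Polynomial

variable {K : Type} [Field K] [Algebra ℂ K]

/-- the ring generated by `t` over `R` -/
noncomputable def adj (R : Subalgebra ℂ K) (t : K) : Subalgebra ℂ K :=
  ((aeval t : R[X] →ₐ[R] K).range).restrictScalars ℂ

theorem mem_adj {R : Subalgebra ℂ K} {t x : K} : x ∈ adj R t ↔ ∃ p : R[X], aeval t p = x :=
  Iff.rfl

theorem le_adj (R : Subalgebra ℂ K) (t : K) : R ≤ adj R t := fun x hx =>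
  ⟨C ⟨x, hx⟩, by
    change aeval t (C (⟨x, hx⟩ : R)) = x
    rw [aeval_C]
    rfl⟩

theorem self_mem_adj (R : Subalgebra ℂ K) (t : K) : t ∈ adj R t := ⟨X, aeval_X t⟩

theorem adj_le {R S : Subalgebra ℂ K} {t : K} (h : R ≤ S) (ht : t ∈ S) : adj R t ≤ S := by
  rintro _ ⟨p, rfl⟩
  change aeval t p ∈ S
  rw [aeval_eq_sum_range]
  refine S.sum_mem fun i _ => ?_
  rw [Algebra.smul_def]
  exact S.mul_mem (h (p.coeff i).2) (S.pow_mem ht i)

/-- the ring generated by `s` and its inverse over `R` -/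
noncomputable def lau (R : Subalgebra ℂ K) (s : K) : Subalgebra ℂ K where
  carrier := {x | ∃ n : ℕ, x * s ^ n ∈ adj R s}
  mul_mem' := by
    rintro x y ⟨n, hn⟩ ⟨m, hm⟩
    refine ⟨n + m, ?_⟩
    have : x * y * s ^ (n + m) = (x * s ^ n) * (y * s ^ m) := by ring
    rw [this]
    exact (adj R s).mul_mem hn hm
  add_mem' := by
    rintro x y ⟨n, hn⟩ ⟨m, hm⟩
    refine ⟨n + m, ?_⟩
    have : (x + y) * s ^ (n + m) = (x * s ^ n) * s ^ m + (y * s ^ m) * s ^ n := by ring
    rw [this]
    exact (adj R s).add_mem ((adj R s).mul_mem hn ((adj R s).pow_mem (self_mem_adj R s) m))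
      ((adj R s).mul_mem hm ((adj R s).pow_mem (self_mem_adj R s) n))
  algebraMap_mem' := fun c => ⟨0, by
    rw [pow_zero, mul_one]
    exact (adj R s).algebraMap_mem c⟩

theorem adj_le_lau (R : Subalgebra ℂ K) (s : K) : adj R s ≤ lau R s := fun x hx =>
  ⟨0, by rwa [pow_zero, mul_one]⟩

theorem inv_mem_lau (R : Subalgebra ℂ K) {s : K} (hs : s ≠ 0) : s⁻¹ ∈ lau R s :=
  ⟨1, by
    rw [pow_one, inv_mul_cancel₀ hs]
    exact (adj R s).one_mem⟩

theorem lau_le {R S : Subalgebra ℂ K} {s : K} (hs0 : s ≠ 0) (h : R ≤ S) (hs : s ∈ S)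
    (hs' : s⁻¹ ∈ S) : lau R s ≤ S := by
  rintro x ⟨n, hn⟩
  have h1 := adj_le h hs hn
  have h2 : x = (x * s ^ n) * (s⁻¹) ^ n := by
    rw [mul_assoc, ← mul_pow, mul_inv_cancel₀ hs0, one_pow, mul_one]
  rw [h2]
  exact S.mul_mem h1 (S.pow_mem hs' n)

theorem ufd_adj {R : Subalgebra ℂ K} {t : K} (h : UniqueFactorizationMonoid R)
    (ht : Transcendental R t) : UniqueFactorizationMonoid (adj R t) := by
  have e : R[X] ≃ₐ[R] (aeval t : R[X] →ₐ[R] K).range :=
    AlgEquiv.ofInjective (aeval t) (transcendental_iff_injective.1 ht)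
  have h2 : UniqueFactorizationMonoid (aeval t : R[X] →ₐ[R] K).range :=
    e.toMulEquiv.uniqueFactorizationMonoid inferInstance
  exact h2

theorem ufd_lau {R : Subalgebra ℂ K} {s : K} (h : UniqueFactorizationMonoid (adj R s))
    (hs : s ≠ 0) : UniqueFactorizationMonoid (lau R s) := by
  let _ : Algebra (adj R s) (lau R s) := (Subalgebra.inclusion (adj_le_lau R s)).toRingHom.toAlgebra
  have hval : ∀ x : adj R s, ((algebraMap (adj R s) (lau R s) x : lau R s) : K) = x := fun x => rfl
  have hloc : IsLocalization (Submonoid.powers (⟨s, self_mem_adj R s⟩ : adj R s)) (lau R s) := by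
    rw [isLocalization_iff]
    refine ⟨?_, ?_, ?_⟩
    · rintro ⟨_, n, rfl⟩
      rw [map_pow]
      apply IsUnit.pow
      refine IsUnit.of_mul_eq_one ⟨s⁻¹, inv_mem_lau R hs⟩ (Subtype.ext ?_)
      exact mul_inv_cancel₀ hs
    · rintro ⟨x, n, hn⟩
      refine ⟨⟨⟨x * s ^ n, hn⟩, ⟨_, n, rfl⟩⟩, Subtype.ext ?_⟩
      rfl
    · intro x y hxy
      refine ⟨1, ?_⟩
      have : (x : K) = y := congrArg (fun z : lau R s => (z : K)) hxy
      rw [Subtype.ext this]
  exact UniqueFactorizationMonoid.of_isLocalization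
    (Submonoid.powers (⟨s, self_mem_adj R s⟩ : adj R s)) (lau R s)

theorem natDegree_zero_of_mul {R : Type} [CommRing R] [IsDomain R] {p r q : R[X]} (hp : p ≠ 0)
    (h : q = r * p) (hq : q.natDegree ≤ p.natDegree) : r.natDegree = 0 := by
  by_cases hr : r = 0
  · rw [hr, natDegree_zero]
  · rw [h, natDegree_mul hr hp] at hq
    omega

theorem natDegree_dc_le {R : Subalgebra ℂ K} (d : Derivation ℂ R R) (p : R[X]) :
    (dc d p).natDegree ≤ p.natDegree := by
  rw [natDegree_le_iff_coeff_eq_zero]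
  intro n hn
  rw [coeff_dc, coeff_eq_zero_of_natDegree_lt hn, map_zero]

/-- adjoining a transcendental primitive -/
theorem Good.adj {D : Derivation ℂ K K} {R : Subalgebra ℂ K} (h : Good D R)
    (hC : ∀ x, D x = 0 → ∃ c : ℂ, x = algebraMap ℂ K c) {t : K} (ht : Transcendental R t)
    (hD : D t ∈ R) : Good D (adj R t) := by
  have hufd := h.ufd
  refine ⟨?_, ufd_adj h.ufd ht, ?_⟩
  · rintro _ ⟨p, rfl⟩
    change D (aeval t p) ∈ EL.adj R t
    rw [D_aeval D R h.stab]
    exact (EL.adj R t).add_mem ⟨_, rfl⟩ ((EL.adj R t).mul_mem ⟨_, rfl⟩ (le_adj R t hD))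
  · rintro a q ⟨p, hp⟩ ⟨r, hr⟩ ha hDa
    change aeval t p = a at hp
    change aeval t r = q at hr
    set d := dres D R h.stab with hd
    set b : R := ⟨D t, hD⟩ with hb
    have hp0 : p ≠ 0 := by
      rintro rfl
      rw [map_zero] at hp
      exact ha hp.symm
    have hpoly : dc d p + derivative p * C b = r * p := by
      apply inj_aeval ht
      rw [map_add, map_mul, map_mul, aeval_C, hp, hr, ← hDa, ← hp, D_aeval D R h.stab]
      rfl
    have hdeg : (dc d p + derivative p * C b).natDegree ≤ p.natDegree := by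
      refine (natDegree_add_le _ _).trans (max_le (natDegree_dc_le d p) ?_)
      refine (natDegree_mul_C_le _ _).trans ((natDegree_derivative_le p).trans ?_)
      omega
    have hr0 := natDegree_zero_of_mul hp0 hpoly hdeg
    rw [eq_C_of_natDegree_eq_zero hr0] at hpoly hr
    set r0 := r.coeff 0 with hr0'
    have hq : q = r0 := by
      rw [← hr, aeval_C]
      rfl
    have hc := congrArg (fun f => coeff f p.natDegree) hpoly
    simp only [coeff_add, coeff_dc, coeff_mul_C, coeff_derivative, coeff_C_mul] at hc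
    rw [coeff_eq_zero_of_natDegree_lt (Nat.lt_succ_self _), zero_mul, zero_mul, add_zero] at hc
    set l := p.coeff p.natDegree with hl
    have hl0 : (l : K) ≠ 0 := fun h0 => hp0 (leadingCoeff_eq_zero.1 (Subtype.ext h0))
    have hDl : D (l : K) = r0 * l := congrArg Subtype.val hc
    have h1 := h.darb l r0 l.2 r0.2 hl0 hDl
    obtain ⟨c, hc2⟩ := hC (a / l) (by
      rw [Derivation.leibniz_div, hDa, hDl, hq]
      simp only [smul_eq_mul]
      ring)
    have h2 : a = algebraMap ℂ K c * l := by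
      rw [← hc2, div_mul_cancel₀ _ hl0]
    rw [h2, mul_inv, ← map_inv₀]
    exact (EL.adj R t).mul_mem ((EL.adj R t).algebraMap_mem _) (le_adj R t h1)

/-- adjoining a transcendental exponential -/
theorem Good.lau {D : Derivation ℂ K K} {R : Subalgebra ℂ K} (h : Good D R)
    (hC : ∀ x, D x = 0 → ∃ c : ℂ, x = algebraMap ℂ K c) {s g : K} (hs : Transcendental R s)
    (hg : g ∈ R) (hD : D s = g * s) : Good D (lau R s) := by
  have hufd := h.ufd
  have hs0 : s ≠ 0 := by
    rintro rfl
    exact hs (isAlgebraic_zero)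
  have hgL : g ∈ EL.lau R s := adj_le_lau R s (le_adj R s hg)
  have hsL : s ∈ EL.lau R s := adj_le_lau R s (self_mem_adj R s)
  have hDpow : ∀ n : ℕ, D (s ^ n) = n * g * s ^ n := by
    intro n
    induction n with
    | zero => simp
    | succ n ih =>
      rw [pow_succ, D.leibniz, ih, hD]
      simp only [smul_eq_mul]
      push_cast
      ring
  have hadj : ∀ p : R[X], D (aeval s p) ∈ EL.adj R s := by
    intro p
    rw [D_aeval D R h.stab, hD]
    exact (EL.adj R s).add_mem ⟨_, rfl⟩ ((EL.adj R s).mul_mem ⟨_, rfl⟩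
      ((EL.adj R s).mul_mem (le_adj R s hg) (self_mem_adj R s)))
  refine ⟨?_, ufd_lau (ufd_adj h.ufd hs) hs0, ?_⟩
  · rintro x ⟨n, p, hp⟩
    change aeval s p = x * s ^ n at hp
    have h1 : x = aeval s p * (s⁻¹) ^ n := by
      rw [hp, mul_assoc, ← mul_pow, mul_inv_cancel₀ hs0, one_pow, mul_one]
    have h2 : D x = D (aeval s p) * (s⁻¹) ^ n - n * g * x := by
      have h3 : D (x * s ^ n) = D (aeval s p) := by rw [hp]
      rw [D.leibniz, hDpow] at h3
      simp only [smul_eq_mul] at h3
      have h4 : s ^ n ≠ 0 := pow_ne_zero n hs0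
      rw [← h3, inv_pow]
      field_simp
      ring
    rw [h2]
    exact (EL.lau R s).sub_mem ((EL.lau R s).mul_mem (adj_le_lau R s (hadj p))
      ((EL.lau R s).pow_mem (inv_mem_lau R hs0) n)) ((EL.lau R s).mul_mem
      ((EL.lau R s).mul_mem (natCast_mem _ n) hgL) ⟨n, p, hp⟩)
  · rintro a q ⟨n, p0, hp0⟩ hqL ha hDa
    change aeval s p0 = a * s ^ n at hp0
    set d := dres D R h.stab with hd
    set b : R := ⟨g, hg⟩ with hb
    have hp00 : p0 ≠ 0 := by
      rintro rfl
      rw [map_zero] at hp0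
      exact (mul_ne_zero ha (pow_ne_zero n hs0)) hp0.symm
    obtain ⟨p, hp1, hp2⟩ := exists_eq_pow_rootMultiplicity_mul_and_not_dvd p0 hp00 0
    set j := p0.rootMultiplicity 0 with hj
    rw [C_0, sub_zero] at hp1 hp2
    have hp : p ≠ 0 := fun h0 => hp2 (h0 ▸ dvd_zero _)
    set y := aeval s p with hy
    have hy0 : y ≠ 0 := by
      intro h0
      apply hp
      apply inj_aeval hs
      rw [map_zero]
      exact h0
    have hay : s ^ j * y = a * s ^ n := by
      rw [← hp0, hp1, map_mul, map_pow, aeval_X]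
    set q' : K := q + n * g - j * g with hq'
    have hDy : D y = q' * y := by
      have h1 : D (s ^ j * y) = D (a * s ^ n) := by rw [hay]
      rw [D.leibniz, D.leibniz, hDpow, hDpow, hDa] at h1
      simp only [smul_eq_mul] at h1
      have h2 : s ^ j ≠ 0 := pow_ne_zero j hs0
      apply mul_left_cancel₀ h2
      rw [hq']
      linear_combination h1 - (q + n * g) * hay
    have hq'L : q' ∈ EL.lau R s := (EL.lau R s).sub_mem ((EL.lau R s).add_mem hqL
      ((EL.lau R s).mul_mem (natCast_mem _ n) hgL)) ((EL.lau R s).mul_mem (natCast_mem _ j) hgL)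
    obtain ⟨l, r, hr⟩ := hq'L
    change aeval s r = q' * s ^ l at hr
    have hpoly : X ^ l * (dc d p + derivative p * (C b * X)) = r * p := by
      apply inj_aeval hs
      rw [map_mul, map_pow, aeval_X, map_add, map_mul, map_mul, map_mul, aeval_C, aeval_X, hr,
        ← hy, mul_right_comm, ← hDy, hy, D_aeval D R h.stab, hD, mul_comm]
      rfl
    have hdvd : X ^ l ∣ r := by
      apply prime_X.pow_dvd_of_dvd_mul_right l hp2
      exact ⟨_, hpoly.symm⟩
    obtain ⟨r', hr'⟩ := hdvd
    have hXl : (X : R[X]) ^ l ≠ 0 := pow_ne_zero l X_ne_zero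
    have hpoly2 : dc d p + derivative p * (C b * X) = r' * p := by
      apply mul_left_cancel₀ hXl
      rw [hpoly, hr', mul_assoc]
    have hq2 : q' = aeval s r' := by
      rw [hr', map_mul, map_pow, aeval_X] at hr
      apply mul_left_cancel₀ (pow_ne_zero l hs0)
      rw [hr, mul_comm]
    have hdeg : (dc d p + derivative p * (C b * X)).natDegree ≤ p.natDegree := by
      refine (natDegree_add_le _ _).trans (max_le (natDegree_dc_le d p) ?_)
      by_cases hn0 : p.natDegree = 0
      · rw [eq_C_of_natDegree_eq_zero hn0, derivative_C, zero_mul, natDegree_zero]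
        exact Nat.zero_le _
      · refine natDegree_mul_le.trans ?_
        have h1 := natDegree_derivative_le p
        have h2 : (C b * X : R[X]).natDegree ≤ 1 :=
          (natDegree_C_mul_le _ _).trans natDegree_X_le
        omega
    have hr0 := natDegree_zero_of_mul hp hpoly2 hdeg
    rw [eq_C_of_natDegree_eq_zero hr0] at hpoly2 hq2
    set r0 := r'.coeff 0 with hr0'
    have hq3 : q' = r0 := by
      rw [hq2, aeval_C]
      rfl
    have hc := congrArg (fun f => coeff f 0) hpoly2
    simp only [coeff_add, coeff_dc, mul_coeff_zero, coeff_X_zero, mul_zero, add_zero,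
      coeff_C_zero] at hc
    set e := p.coeff 0 with he
    have he0 : (e : K) ≠ 0 := by
      intro h0
      apply hp2
      rw [X_dvd_iff]
      exact Subtype.ext h0
    have hDe : D (e : K) = r0 * e := congrArg Subtype.val hc
    have h1 := h.darb e r0 e.2 r0.2 he0 hDe
    obtain ⟨c, hc2⟩ := hC (y / e) (by
      rw [Derivation.leibniz_div, hDy, hDe, hq3]
      simp only [smul_eq_mul]
      ring)
    have h2 : y = algebraMap ℂ K c * e := by
      rw [← hc2, div_mul_cancel₀ _ he0]
    have h3 : a⁻¹ = s ^ n * (s⁻¹) ^ j * (algebraMap ℂ K c⁻¹ * (e : K)⁻¹) := by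
      rw [map_inv₀, ← mul_inv, ← h2, inv_pow]
      have h4 : s ^ j ≠ 0 := pow_ne_zero j hs0
      field_simp
      linear_combination hay
    rw [h3]
    exact (EL.lau R s).mul_mem ((EL.lau R s).mul_mem ((EL.lau R s).pow_mem hsL n)
      ((EL.lau R s).pow_mem (inv_mem_lau R hs0) j)) ((EL.lau R s).mul_mem
      ((EL.lau R s).algebraMap_mem _) (adj_le_lau R s (le_adj R s h1)))

end Pool.Agent.Y377.EL
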