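import Pool.Agent.Y377.EL.Fn

/-!
Algebraically independent generators of the towers.
-/

set_option autoImplicit false

namespace Pool.Agent.Y377.EL

open MvPolynomial

variable {K : Type} [Field K] [Algebra ℂ K]

/-- the elements which are polynomials in the `u i`, divided by a monomial in those `u i` which are
invertible in `R` -/
noncomputable def lsub {ι : Type} [Fintype ι] (u : ι → K) (R : Subalgebra ℂ K) :
    Subalgebra ℂ K where
  carrier := {x | ∃ (P : MvPolynomial ι ℂ) (e : ι → ℕ), (∀ i, e i ≠ 0 → (u i)⁻¹ ∈ R) ∧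
    x * ∏ i, u i ^ e i = aeval u P}
  mul_mem' := by
    rintro x y ⟨P, e, h1, h2⟩ ⟨Q, f, h3, h4⟩
    refine ⟨P * Q, e + f, fun i hi => ?_, ?_⟩
    · by_cases h : e i = 0
      · exact h3 i (by
          intro h5
          apply hi
          rw [Pi.add_apply, h, h5])
      · exact h1 i h
    · have h5 : ∏ i, u i ^ (e + f) i = (∏ i, u i ^ e i) * ∏ i, u i ^ f i := by
        rw [← Finset.prod_mul_distrib]
        exact Finset.prod_congr rfl fun i _ => pow_add _ _ _
      rw [h5, map_mul, ← h2, ← h4]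
      ring
  add_mem' := by
    rintro x y ⟨P, e, h1, h2⟩ ⟨Q, f, h3, h4⟩
    refine ⟨P * (∏ i, X i ^ f i) + Q * (∏ i, X i ^ e i), e + f, fun i hi => ?_, ?_⟩
    · by_cases h : e i = 0
      · exact h3 i (by
          intro h5
          apply hi
          rw [Pi.add_apply, h, h5])
      · exact h1 i h
    · have h5 : ∏ i, u i ^ (e + f) i = (∏ i, u i ^ e i) * ∏ i, u i ^ f i := by
        rw [← Finset.prod_mul_distrib]
        exact Finset.prod_congr rfl fun i _ => pow_add _ _ _
      rw [h5, map_add, map_mul, map_mul, ← h2, ← h4, map_prod, map_prod]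
      simp only [map_pow, aeval_X]
      ring
  algebraMap_mem' := fun c => ⟨C c, 0, fun i hi => absurd rfl hi, by
    simp⟩

theorem lsub_self {ι : Type} [Fintype ι] (u : ι → K) (R : Subalgebra ℂ K) (i : ι) :
    u i ∈ lsub u R := ⟨X i, 0, fun i hi => absurd rfl hi, by simp⟩

theorem lsub_option {ι : Type} [Fintype ι] {u : ι → K} {R R' : Subalgebra ℂ K} (h : R ≤ lsub u R)
    (hR : R ≤ R') (t : K) : R ≤ lsub (fun o : Option ι => o.elim t u) R' := by
  intro x hx
  obtain ⟨P, e, h1, h2⟩ := h hx
  refine ⟨rename some P, fun o => o.elim 0 e, ?_, ?_⟩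
  · rintro (_ | i) hi
    · exact absurd rfl hi
    · exact hR (h1 i hi)
  · rw [Fintype.prod_option, aeval_rename]
    simp only [Option.elim_none, Option.elim_some, pow_zero, one_mul]
    exact h2

theorem indep_option {ι : Type} {u : ι → K} {R : Subalgebra ℂ K} (h : AlgebraicIndependent ℂ u)
    (hu : ∀ i, u i ∈ R) {t : K} (ht : Transcendental R t) :
    AlgebraicIndependent ℂ (fun o : Option ι => o.elim t u) := by
  rw [h.option_iff_transcendental]
  apply trans_mono _ ht
  rw [Algebra.adjoin_le_iff]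
  rintro _ ⟨i, rfl⟩
  exact hu i

theorem Tower.fam {D : Derivation ℂ K K} {A R : Subalgebra ℂ K} (h : Tower D A R) :
    ∃ (ι : Type) (_ : Fintype ι) (u : ι → K), AlgebraicIndependent ℂ u ∧ (∀ i, u i ∈ R) ∧
      R ≤ lsub u R := by
  induction h with
  | bot =>
    refine ⟨Empty, inferInstance, Empty.elim, ?_, fun i => i.elim, bot_le⟩
    rw [algebraicIndependent_empty_type_iff]
    exact (algebraMap ℂ K).injective
  | @prim R t _ _ _ h4 ih =>
    obtain ⟨ι, _, u, h1, h2, h3⟩ := ih
    refine ⟨Option ι, inferInstance, fun o => o.elim t u, indep_option h1 h2 h4, ?_, ?_⟩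
    · rintro (_ | i)
      · exact self_mem_adj R t
      · exact le_adj R t (h2 i)
    · exact adj_le (lsub_option h3 (le_adj R t) t)
        (lsub_self (fun o : Option ι => o.elim t u) (adj R t) none)
  | @expo R f s _ _ _ _ _ h5 ih =>
    obtain ⟨ι, _, u, h1, h2, h3⟩ := ih
    have hs0 := transcendental_ne_zero h5
    have hle := (le_adj R s).trans (adj_le_lau R s)
    refine ⟨Option ι, inferInstance, fun o => o.elim s u, indep_option h1 h2 h5, ?_, ?_⟩
    · rintro (_ | i)
      · exact adj_le_lau R s (self_mem_adj R s)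
      · exact hle (h2 i)
    · refine lau_le hs0 (lsub_option h3 hle s)
        (lsub_self (fun o : Option ι => o.elim s u) (lau R s) none) ?_
      refine ⟨1, fun o => o.elim 1 0, ?_, ?_⟩
      · rintro (_ | i) hi
        · exact inv_mem_lau R hs0
        · exact absurd rfl hi
      · rw [Fintype.prod_option]
        simp [hs0]

/-- common denominators -/
theorem common {ι : Type} [Fintype ι] {u : ι → K} {R : Subalgebra ℂ K} {N : ℕ}
    {f : Fin N → K} (h : ∀ j, f j ∈ lsub u R) :
    ∃ (e : ι → ℕ) (G : Fin N → MvPolynomial ι ℂ), (∀ i, e i ≠ 0 → (u i)⁻¹ ∈ R) ∧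
      ∀ j, f j * ∏ i, u i ^ e i = aeval u (G j) := by
  classical
  choose P e h1 h2 using h
  refine ⟨fun i => ∑ j, e j i, fun j => P j * ∏ l ∈ Finset.univ.erase j, ∏ i, X i ^ e l i,
    fun i hi => ?_, fun j => ?_⟩
  · obtain ⟨j, -, hj⟩ := Finset.exists_ne_zero_of_sum_ne_zero hi
    exact h1 j i hj
  · have h3 : ∏ i, u i ^ (∑ l, e l i) = ∏ l, ∏ i, u i ^ e l i := by
      rw [Finset.prod_comm]
      exact Finset.prod_congr rfl fun i _ => (Finset.prod_pow_eq_pow_sum _ _ _).symm
    rw [h3, ← Finset.mul_prod_erase Finset.univ _ (Finset.mem_univ j), ← mul_assoc, h2, map_mul,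
      map_prod]
    congr 1
    refine Finset.prod_congr rfl fun l _ => ?_
    rw [map_prod]
    simp only [map_pow, aeval_X]

theorem aeval_mul_hom {N : ℕ} {L : Type} [CommRing L] [Algebra ℂ L] {f : Fin N → L} {q : L}
    {d : ℕ} {H : MvPolynomial (Fin N) ℂ} (hH : H.IsHomogeneous d) :
    aeval (fun j => f j * q) H = aeval f H * q ^ d := by
  rw [aeval_def, aeval_def, eval₂_eq', eval₂_eq', Finset.sum_mul]
  refine Finset.sum_congr rfl fun m hm => ?_
  have h1 := hH (mem_support_iff.1 hm)
  have h2 : ∑ i, m i = d := by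
    rw [← h1, Finsupp.weight_apply, Finsupp.sum_fintype _ _ (fun i => by simp)]
    simp
  rw [← h2, ← Finset.prod_pow_eq_pow_sum, mul_assoc, ← Finset.prod_mul_distrib]
  congr 1
  exact Finset.prod_congr rfl fun i _ => mul_pow _ _ _

end Pool.Agent.Y377.EL
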