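import Pool.Agent.Y377.EL.Ext

/-!
Towers of transcendental primitives and exponentials.
-/

set_option autoImplicit false

namespace Pool.Agent.Y377.EL

open Polynomial

variable {K : Type} [Field K] [Algebra ℂ K]

inductive Tower (D : Derivation ℂ K K) (A : Subalgebra ℂ K) : Subalgebra ℂ K → Prop
  | bot : Tower D A ⊥
  | prim {R : Subalgebra ℂ K} {t : K} : Tower D A R → t ∈ A → D t ∈ R → Transcendental R t →
      Tower D A (adj R t)
  | expo {R : Subalgebra ℂ K} {f s : K} : Tower D A R → f ∈ R → s ∈ A → s⁻¹ ∈ A →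
      D s = D f * s → Transcendental R s → Tower D A (lau R s)

theorem trans_mono {R S : Subalgebra ℂ K} (h : R ≤ S) {t : K} (ht : Transcendental S t) :
    Transcendental R t := by
  rintro ⟨p, hp, hp2⟩
  apply ht
  refine ⟨p.map (Subalgebra.inclusion h).toRingHom, ?_, ?_⟩
  · rw [Ne, Polynomial.map_eq_zero_iff]
    · exact hp
    · exact Subalgebra.inclusion_injective h
  · rw [aeval_def, eval₂_map]
    exact hp2

theorem transcendental_ne_zero {R : Subalgebra ℂ K} {s : K} (hs : Transcendental R s) :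
    s ≠ 0 := by
  rintro rfl
  exact hs isAlgebraic_zero

theorem Tower.le {D : Derivation ℂ K K} {A R : Subalgebra ℂ K} (h : Tower D A R) : R ≤ A := by
  induction h with
  | bot => exact bot_le
  | prim _ h2 _ _ ih => exact adj_le ih h2
  | expo _ _ h3 h4 _ h5 ih => exact lau_le (transcendental_ne_zero h5) ih h3 h4

theorem good_bot (D : Derivation ℂ K K) : Good D ⊥ := by
  refine ⟨?_, ?_, ?_⟩
  · intro x hx
    obtain ⟨c, rfl⟩ := Algebra.mem_bot.1 hx
    rw [D.map_algebraMap]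
    exact zero_mem _
  · have h1 : UniqueFactorizationMonoid ℂ := inferInstance
    exact (Algebra.botEquiv ℂ K).symm.toMulEquiv.uniqueFactorizationMonoid h1
  · intro a q ha _ _ _
    obtain ⟨c, rfl⟩ := Algebra.mem_bot.1 ha
    rw [← map_inv₀]
    exact Subalgebra.algebraMap_mem _ _

theorem Tower.good {D : Derivation ℂ K K} {A R : Subalgebra ℂ K} (h : Tower D A R)
    (hC : ∀ x, D x = 0 → ∃ c : ℂ, x = algebraMap ℂ K c) : Good D R := by
  induction h with
  | bot => exact good_bot D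
  | prim _ _ h3 h4 ih => exact ih.adj hC h4 h3
  | expo _ h2 _ _ h3 h5 ih => exact ih.lau hC h5 (ih.stab _ h2) h3

theorem alg_trans {R S : Subalgebra ℂ K} (h : R ≤ S) (hS : ∀ x ∈ S, IsAlgebraic R x) {x : K}
    (hx : IsAlgebraic S x) : IsAlgebraic R x := by
  let _ : Algebra R S := (Subalgebra.inclusion h).toRingHom.toAlgebra
  have h1 : IsScalarTower R S K := IsScalarTower.of_algebraMap_eq fun x => rfl
  have h2 : Algebra.IsAlgebraic R S := ⟨fun x => by
    have h3 := hS x x.2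
    exact (isAlgebraic_algebraMap_iff (R := R) (S := S) (A := K) Subtype.val_injective).1 h3⟩
  exact hx.restrictScalars R

theorem alg_of_mem {R : Subalgebra ℂ K} {x : K} (hx : x ∈ R) : IsAlgebraic R x :=
  isAlgebraic_algebraMap (A := K) (⟨x, hx⟩ : R)

/-- the elements which are algebraic over a subring -/
noncomputable def algC (R : Subalgebra ℂ K) : Subalgebra ℂ K :=
  (Subalgebra.algebraicClosure R K).restrictScalars ℂ

theorem mem_algC {R : Subalgebra ℂ K} {x : K} : x ∈ algC R ↔ IsAlgebraic R x := Iff.rfl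

theorem alg_mono {R S : Subalgebra ℂ K} (h : R ≤ S) {x : K} (hx : IsAlgebraic R x) :
    IsAlgebraic S x := by
  by_contra h1
  exact trans_mono h h1 hx

theorem unit_adj {R : Subalgebra ℂ K} {t u : K} (ht : Transcendental R t) (h1 : u ∈ adj R t)
    (h2 : u⁻¹ ∈ adj R t) (h0 : u ≠ 0) : u ∈ R ∧ u⁻¹ ∈ R := by
  obtain ⟨p, hp⟩ := h1
  obtain ⟨q, hq⟩ := h2
  change aeval t p = u at hp
  change aeval t q = u⁻¹ at hq
  have h3 : p * q = 1 := by
    apply inj_aeval ht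
    rw [map_mul, hp, hq, mul_inv_cancel₀ h0, map_one]
  have h4 : IsUnit p := IsUnit.of_mul_eq_one _ h3
  have h5 : IsUnit q := IsUnit.of_mul_eq_one _ ((mul_comm q p).trans h3)
  obtain ⟨r, -, hr⟩ := Polynomial.isUnit_iff.1 h4
  obtain ⟨r', -, hr'⟩ := Polynomial.isUnit_iff.1 h5
  rw [← hr, aeval_C] at hp
  rw [← hr', aeval_C] at hq
  exact ⟨hp ▸ r.2, hq ▸ r'.2⟩

theorem unit_lau {R : Subalgebra ℂ K} {s u : K} (hs : Transcendental R s) (h1 : u ∈ lau R s)
    (h2 : u⁻¹ ∈ lau R s) (h0 : u ≠ 0) :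
    ∃ r : K, r ∈ R ∧ r⁻¹ ∈ R ∧ r ≠ 0 ∧ ∃ i n : ℕ, u * s ^ n = r * s ^ i := by
  obtain ⟨n, p, hp⟩ := h1
  obtain ⟨m, q, hq⟩ := h2
  change aeval s p = u * s ^ n at hp
  change aeval s q = u⁻¹ * s ^ m at hq
  have h3 : p * q = X ^ (n + m) := by
    apply inj_aeval hs
    rw [map_mul, hp, hq, map_pow, aeval_X]
    have : u * s ^ n * (u⁻¹ * s ^ m) = (u * u⁻¹) * (s ^ n * s ^ m) := by ring
    rw [this, mul_inv_cancel₀ h0, one_mul, pow_add]
  obtain ⟨i, -, hi⟩ := (dvd_prime_pow prime_X (n + m)).1 ⟨q, h3.symm⟩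
  obtain ⟨v, hv⟩ := hi.symm
  obtain ⟨r, hr1, hr2⟩ := Polynomial.isUnit_iff.1 v.isUnit
  obtain ⟨w, hw⟩ := hr1
  have hr0 : (r : K) ≠ 0 := by
    intro h
    have : r = 0 := Subtype.ext h
    rw [this] at hw
    exact w.ne_zero hw
  have hinv : ((w⁻¹ : Rˣ) : R) * r = 1 := by
    rw [← hw, Units.inv_mul]
  have hinv' : (((w⁻¹ : Rˣ) : R) : K) * r = 1 := congrArg Subtype.val hinv
  refine ⟨r, r.2, ?_, hr0, i, n, ?_⟩
  · rw [← eq_inv_of_mul_eq_one_left hinv']
    exact ((w⁻¹ : Rˣ) : R).2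
  · rw [← hp, ← hv, ← hr2, map_mul, map_pow, aeval_X, aeval_C, mul_comm]
    rfl

/-- roots of units -/
theorem Tower.root {D : Derivation ℂ K K} {A R : Subalgebra ℂ K} (h : Tower D A R)
    (hC : ∀ x, D x = 0 → ∃ c : ℂ, x = algebraMap ℂ K c)
    (hexp : ∀ f ∈ A, ∃ s ∈ A, s⁻¹ ∈ A ∧ s ≠ 0 ∧ D s = D f * s) {k : ℕ} (hk : 0 < k) :
    ∃ R', Tower D A R' ∧ R ≤ R' ∧ (∀ x ∈ R', IsAlgebraic R x) ∧
      ∀ u ∈ R, u ≠ 0 → u⁻¹ ∈ R → ∃ v ∈ R', v ^ k = u := by
  have hch : CharZero K := charZero_of_injective_algebraMap (algebraMap ℂ K).injective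
  induction h with
  | bot =>
    refine ⟨⊥, Tower.bot, le_rfl, fun x hx => alg_of_mem hx, ?_⟩
    intro u hu _ _
    obtain ⟨c, rfl⟩ := Algebra.mem_bot.1 hu
    obtain ⟨z, hz⟩ := IsAlgClosed.exists_pow_nat_eq c hk
    exact ⟨algebraMap ℂ K z, Subalgebra.algebraMap_mem _ _, by rw [← map_pow, hz]⟩
  | @prim R t h1 h2 h3 h4 ih =>
    obtain ⟨R', t1, t2, t3, t4⟩ := ih
    have ht : Transcendental R' t := fun h => h4 (alg_trans t2 t3 h)
    refine ⟨adj R' t, Tower.prim t1 h2 (t2 h3) ht, adj_le (t2.trans (le_adj R' t))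
      (self_mem_adj R' t), ?_, ?_⟩
    · have h5 : adj R' t ≤ algC (adj R t) := adj_le (fun x hx => mem_algC.2
        (alg_mono (le_adj R t) (t3 x hx))) (mem_algC.2 (alg_of_mem (self_mem_adj R t)))
      exact fun x hx => h5 hx
    · intro u hu hu0 hu'
      obtain ⟨h5, h6⟩ := unit_adj h4 hu hu' hu0
      obtain ⟨v, hv, hv2⟩ := t4 u h5 hu0 h6
      exact ⟨v, le_adj R' t hv, hv2⟩
  | @expo R f s h1 h2 h3 h3' h4 h5 ih =>
    obtain ⟨R', t1, t2, t3, t4⟩ := ih
    have hs0 := transcendental_ne_zero h5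
    have hf' : f * (algebraMap ℂ K (k : ℂ)⁻¹) ∈ R := R.mul_mem h2 (R.algebraMap_mem _)
    obtain ⟨s1, g1, g2, g3, g4⟩ := hexp _ (h1.le hf')
    have hkc : algebraMap ℂ K (k : ℂ)⁻¹ = (k : K)⁻¹ := by rw [map_inv₀, map_natCast]
    have hk0 : (k : K) ≠ 0 := Nat.cast_ne_zero.2 hk.ne'
    have hDs1 : D s1 * k = D f * s1 := by
      rw [g4, D.leibniz, D.map_algebraMap, smul_zero, zero_add, hkc, smul_eq_mul]
      field_simp
    have hDk : D (s1 ^ k) = D f * s1 ^ k := by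
      rw [D.leibniz_pow]
      simp only [smul_eq_mul, nsmul_eq_mul]
      have : s1 ^ k = s1 ^ (k - 1) * s1 := by
        rw [← pow_succ]
        congr 1
        omega
      rw [this]
      linear_combination s1 ^ (k - 1) * hDs1
    have hs1k : s1 ^ k ≠ 0 := pow_ne_zero k g3
    obtain ⟨c, hc⟩ := hC (s / s1 ^ k) (by
      rw [Derivation.leibniz_div, hDk, h4]
      simp only [smul_eq_mul]
      ring)
    obtain ⟨z, hz⟩ := IsAlgClosed.exists_pow_nat_eq c hk
    set s2 := algebraMap ℂ K z * s1 with hs2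
    have hs2k : s2 ^ k = s := by
      rw [hs2, mul_pow, ← map_pow, hz, ← hc, div_mul_cancel₀ _ hs1k]
    have hs20 : s2 ≠ 0 := by
      intro h0
      rw [h0, zero_pow hk.ne'] at hs2k
      exact hs0 hs2k.symm
    have hz0 : algebraMap ℂ K z ≠ 0 := left_ne_zero_of_mul hs20
    have hs2A : s2 ∈ A := A.mul_mem (A.algebraMap_mem z) g1
    have hs2A' : s2⁻¹ ∈ A := by
      rw [hs2, mul_inv, ← map_inv₀]
      exact A.mul_mem (A.algebraMap_mem _) g2
    have hDs2 : D s2 = D (f * (algebraMap ℂ K (k : ℂ)⁻¹)) * s2 := by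
      rw [hs2, D.leibniz, D.map_algebraMap, smul_zero, add_zero, g4, smul_eq_mul]
      ring
    have htr : Transcendental R' s2 := by
      intro h
      apply h5
      rw [← hs2k]
      exact (alg_trans t2 t3 h).pow k
    refine ⟨lau R' s2, Tower.expo t1 (t2 hf') hs2A hs2A' hDs2 htr, ?_, ?_, ?_⟩
    · have hm : s2 ∈ lau R' s2 := adj_le_lau R' s2 (self_mem_adj R' s2)
      apply lau_le hs0 (t2.trans ((le_adj R' s2).trans (adj_le_lau R' s2)))
      · rw [← hs2k]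
        exact (lau R' s2).pow_mem hm k
      · rw [← hs2k, ← inv_pow]
        exact (lau R' s2).pow_mem (inv_mem_lau R' hs20) k
    · have hsm : s ∈ lau R s := adj_le_lau R s (self_mem_adj R s)
      have ha : IsAlgebraic (lau R s) s2 := by
        apply IsAlgebraic.of_pow hk
        rw [hs2k]
        exact alg_of_mem hsm
      have h6 : lau R' s2 ≤ algC (lau R s) := lau_le hs20 (fun x hx => mem_algC.2
        (alg_mono ((le_adj R s).trans (adj_le_lau R s)) (t3 x hx))) (mem_algC.2 ha)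
        (mem_algC.2 ha.inv)
      exact fun x hx => h6 hx
    · intro u hu hu0 hu'
      obtain ⟨r, hr1, hr2, hr3, i, n, hr4⟩ := unit_lau h5 hu hu' hu0
      obtain ⟨v, hv, hv2⟩ := t4 r hr1 hr3 hr2
      have hm : s2 ∈ lau R' s2 := adj_le_lau R' s2 (self_mem_adj R' s2)
      refine ⟨v * s2 ^ i * (s2⁻¹) ^ n, (lau R' s2).mul_mem ((lau R' s2).mul_mem
        (adj_le_lau R' s2 (le_adj R' s2 hv)) ((lau R' s2).pow_mem hm i))
        ((lau R' s2).pow_mem (inv_mem_lau R' hs20) n), ?_⟩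
      rw [mul_pow, mul_pow, hv2, ← pow_mul, mul_comm i k, pow_mul, hs2k, ← pow_mul, mul_comm n k,
        pow_mul, inv_pow, hs2k, ← hr4, inv_pow, mul_assoc, mul_inv_cancel₀ (pow_ne_zero n hs0),
        mul_one]

/-- primitives can be added -/
theorem Tower.ext_prim {D : Derivation ℂ K K} {A R : Subalgebra ℂ K} (h : Tower D A R)
    (hC : ∀ x, D x = 0 → ∃ c : ℂ, x = algebraMap ℂ K c) {F : K} (hF : F ∈ A) (hD : D F ∈ R) :
    ∃ R', Tower D A R' ∧ R ≤ R' ∧ F ∈ R' := by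
  by_cases h1 : IsAlgebraic R F
  · exact ⟨R, h, le_rfl, (h.good hC).alg_prim hC h1 hD⟩
  · exact ⟨adj R F, Tower.prim h hF hD h1, le_adj R F, self_mem_adj R F⟩

/-- exponentials can be added -/
theorem Tower.ext_exp {D : Derivation ℂ K K} {A R : Subalgebra ℂ K} (h : Tower D A R)
    (hC : ∀ x, D x = 0 → ∃ c : ℂ, x = algebraMap ℂ K c)
    (hexp : ∀ f ∈ A, ∃ s ∈ A, s⁻¹ ∈ A ∧ s ≠ 0 ∧ D s = D f * s) {f y : K} (hf : f ∈ R)
    (hy : y ∈ A) (hy' : y⁻¹ ∈ A) (hy0 : y ≠ 0) (hD : D y = D f * y) :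
    ∃ R', Tower D A R' ∧ R ≤ R' ∧ y ∈ R' := by
  have hch : CharZero K := charZero_of_injective_algebraMap (algebraMap ℂ K).injective
  by_cases h1 : IsAlgebraic R y
  · obtain ⟨k, hk, h2, h3⟩ := (h.good hC).alg_exp hC h1 hy0 ((h.good hC).stab _ hf) hD
    obtain ⟨R', t1, t2, -, t4⟩ := h.root hC hexp hk
    obtain ⟨v, hv, hv2⟩ := t4 _ h2 (pow_ne_zero k hy0) h3
    have hv0 : v ≠ 0 := by
      rintro rfl
      rw [zero_pow hk.ne'] at hv2
      exact pow_ne_zero k hy0 hv2.symm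
    have h4 : (y / v) ^ k = 1 := by
      rw [div_pow, hv2, div_self (pow_ne_zero k hy0)]
    have h5 : D (y / v) = 0 := by
      have h6 : D ((y / v) ^ k) = 0 := by rw [h4, D.map_one_eq_zero]
      rw [D.leibniz_pow] at h6
      simp only [smul_eq_mul, nsmul_eq_mul] at h6
      have h7 : (k : K) ≠ 0 := Nat.cast_ne_zero.2 hk.ne'
      have h8 : (y / v) ^ (k - 1) ≠ 0 := pow_ne_zero _ (div_ne_zero hy0 hv0)
      exact (mul_eq_zero.1 ((mul_eq_zero.1 h6).resolve_left h7)).resolve_left h8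
    obtain ⟨c, hc⟩ := hC _ h5
    refine ⟨R', t1, t2, ?_⟩
    have h6 : y = algebraMap ℂ K c * v := by
      rw [← hc, div_mul_cancel₀ _ hv0]
    rw [h6]
    exact R'.mul_mem (R'.algebraMap_mem c) hv
  · exact ⟨lau R y, Tower.expo h hf hy hy' hD h1, (le_adj R y).trans (adj_le_lau R y),
      adj_le_lau R y (self_mem_adj R y)⟩

end Pool.Agent.Y377.EL
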