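import Pool.Agent.TH143.Hol
import Pool.Agent.Y377.EL.Tower

/-!
Holomorphic functions generated by exponentials and primitives.
-/

set_option autoImplicit false

namespace Pool.Agent.Y377.EL

open Set Filter Topology Pool.Agent.TH143

/-- a derivation extends to the fraction field -/
theorem exists_derFrac' {A F : Type} [CommRing A] [IsDomain A] [Algebra ℂ A] [Field F]
    [Algebra A F] [IsFractionRing A F] [Algebra ℂ F] [IsScalarTower ℂ A F]
    (d : Derivation ℂ A A) : ∃ D : Derivation ℂ F F,
      ∀ a, D (algebraMap A F a) = algebraMap A F (d a) := by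
  let φ : A →+* TrivSqZeroExt F F :=
    { toFun := fun a => TrivSqZeroExt.inl (algebraMap A F a) +
        TrivSqZeroExt.inr (algebraMap A F (d a))
      map_one' := by
        apply TrivSqZeroExt.ext <;> simp
      map_mul' := fun a b => by
        apply TrivSqZeroExt.ext
        · simp
        · simp only [TrivSqZeroExt.snd_mul, TrivSqZeroExt.fst_add, TrivSqZeroExt.fst_inl,
            TrivSqZeroExt.fst_inr, TrivSqZeroExt.snd_add, TrivSqZeroExt.snd_inl,
            TrivSqZeroExt.snd_inr, add_zero, zero_add, Derivation.leibniz, smul_eq_mul, map_add,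
            map_mul, op_smul_eq_smul]
      map_zero' := by
        apply TrivSqZeroExt.ext <;> simp
      map_add' := fun a b => by
        apply TrivSqZeroExt.ext <;> simp [Algebra.smul_def] }
  have hφ : ∀ y : nonZeroDivisors A, IsUnit (φ y) := by
    intro y
    rw [TrivSqZeroExt.isUnit_iff_isUnit_fst]
    have h1 : (φ y).fst = algebraMap A F y := by
      simp [φ]
    rw [h1]
    exact IsLocalization.map_units F y
  let Φ : F →+* TrivSqZeroExt F F := IsLocalization.lift hφ
  have hΦ : ∀ a : A, Φ (algebraMap A F a) = φ a := fun a => IsLocalization.lift_eq hφ a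
  have hfst : ∀ x : F, (Φ x).fst = x := by
    intro x
    have h1 : ((TrivSqZeroExt.fstHom F F F).toRingHom.comp Φ) = RingHom.id F := by
      apply IsLocalization.ringHom_ext (nonZeroDivisors A)
      ext a
      change (Φ (algebraMap A F a)).fst = algebraMap A F a
      rw [hΦ]
      simp [φ]
    exact congrArg (fun g : F →+* F => g x) h1
  have hsnd : ∀ a : A, (Φ (algebraMap A F a)).snd = algebraMap A F (d a) := by
    intro a
    rw [hΦ]
    change (TrivSqZeroExt.inl (algebraMap A F a) + TrivSqZeroExt.inr (algebraMap A F (d a)) :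
      TrivSqZeroExt F F).snd = _
    rw [TrivSqZeroExt.snd_add, TrivSqZeroExt.snd_inl, TrivSqZeroExt.snd_inr, zero_add]
  refine ⟨Derivation.mk' { toFun := fun x => (Φ x).snd
                           map_add' := fun x y => by rw [map_add, TrivSqZeroExt.snd_add]
                           map_smul' := fun c x => ?_ } fun x y => ?_, hsnd⟩
  · rw [Algebra.smul_def, map_mul, TrivSqZeroExt.snd_mul, hfst, hfst,
      IsScalarTower.algebraMap_apply ℂ A F, hsnd, d.map_algebraMap, map_zero, smul_zero, add_zero,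
      RingHom.id_apply, smul_eq_mul, Algebra.smul_def c, IsScalarTower.algebraMap_apply ℂ A F]
  · change (Φ (x * y)).snd = x • (Φ y).snd + y • (Φ x).snd
    rw [map_mul, TrivSqZeroExt.snd_mul, hfst, hfst]
    simp [mul_comm]

theorem exists_derFrac {A : Type} [CommRing A] [IsDomain A] [Algebra ℂ A]
    (d : Derivation ℂ A A) : ∃ D : Derivation ℂ (FractionRing A) (FractionRing A),
      ∀ a, D (algebraMap A _ a) = algebraMap A _ (d a) :=
  exists_derFrac' d

theorem exists_holDer {S : Set ℂ} (hS : IsOpen S) : ∃ d : Derivation ℂ (Hol S) (Hol S),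
    ∀ (f : Hol S) (F : ℂ → ℂ), AnalyticOnNhd ℂ F S → (∀ z : S, evz z f = F z) →
      ∀ z : S, evz z (d f) = deriv F z := by
  classical
  let d0 : Hol S → Hol S := fun f => toHol (deriv f.2.choose) (f.2.choose_spec.1.deriv)
  have key : ∀ (f : Hol S) (F : ℂ → ℂ), AnalyticOnNhd ℂ F S → (∀ z : S, evz z f = F z) →
      ∀ z : S, evz z (d0 f) = deriv F z := by
    intro f F hF hf z
    change deriv f.2.choose z = deriv F z
    apply Filter.EventuallyEq.deriv_eq
    filter_upwards [hS.mem_nhds z.2] with w hw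
    have h1 := f.2.choose_spec.2 ⟨w, hw⟩
    have h2 := hf ⟨w, hw⟩
    exact h1.symm.trans h2
  have hval : ∀ (f : Hol S), ∃ F : ℂ → ℂ, AnalyticOnNhd ℂ F S ∧ ∀ z : S, evz z f = F z := hol_an
  refine ⟨Derivation.mk' { toFun := d0
                           map_add' := fun f g => ?_
                           map_smul' := fun c f => ?_ } fun f g => ?_, key⟩
  · obtain ⟨F, hF, hf⟩ := hval f
    obtain ⟨G, hG, hg⟩ := hval g
    apply hol_ext
    intro z
    rw [key (f + g) (fun w => F w + G w) (hF.add hG) (fun w => by rw [map_add, hf, hg]) z, map_add,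
      key f F hF hf z, key g G hG hg z]
    exact deriv_add (hF z z.2).differentiableAt (hG z z.2).differentiableAt
  · obtain ⟨F, hF, hf⟩ := hval f
    apply hol_ext
    intro z
    rw [key (c • f) (fun w => c * F w) (analyticOnNhd_const.mul hF)
      (fun w => by rw [map_smul, hf, smul_eq_mul]) z, RingHom.id_apply, map_smul, key f F hF hf z]
    exact deriv_const_mul c (hF z z.2).differentiableAt
  · obtain ⟨F, hF, hf⟩ := hval f
    obtain ⟨G, hG, hg⟩ := hval g
    apply hol_ext
    intro z
    change evz z (d0 (f * g)) = evz z (f • d0 g + g • d0 f)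
    rw [key (f * g) (fun w => F w * G w) (hF.mul hG) (fun w => by rw [map_mul, hf, hg]) z]
    have h1 : evz z (f • d0 g + g • d0 f) = F z * deriv G z + G z * deriv F z := by
      rw [smul_eq_mul, smul_eq_mul, map_add, map_mul, map_mul, hf, hg, key f F hF hf z,
        key g G hG hg z]
    rw [h1]
    have h2 := deriv_mul (hF z z.2).differentiableAt (hG z z.2).differentiableAt
    have h3 : deriv (fun w => F w * G w) z = deriv F z * G z + F z * deriv G z := h2
    rw [h3]
    ring

/-- quotients of holomorphic functions with vanishing derivative are constant -/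
theorem wronskian_const {S : Set ℂ} (hS : IsOpen S) (hSc : IsPreconnected S) {F G : ℂ → ℂ}
    (hF : AnalyticOnNhd ℂ F S) (hG : AnalyticOnNhd ℂ G S) (hG0 : ∃ z ∈ S, G z ≠ 0)
    (h : ∀ z ∈ S, deriv F z * G z = F z * deriv G z) : ∃ c : ℂ, ∀ z ∈ S, F z = c * G z := by
  obtain ⟨z0, hz0, hGz⟩ := hG0
  have h1 : ∀ᶠ z in 𝓝 z0, G z ≠ 0 := (hG z0 hz0).continuousAt.eventually_ne hGz
  obtain ⟨r, hr, hball⟩ := Metric.eventually_nhds_iff_ball.1 (h1.and (hS.mem_nhds hz0))
  refine ⟨F z0 / G z0, ?_⟩
  have h2 : ∀ z ∈ Metric.ball z0 r, F z / G z = F z0 / G z0 := by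
    intro z hz
    have hconv : Convex ℝ (Metric.ball z0 r) := convex_ball z0 r
    have hd : DifferentiableOn ℂ (fun z => F z / G z) (Metric.ball z0 r) := by
      intro w hw
      exact ((hF w (hball w hw).2).differentiableAt.div (hG w (hball w hw).2).differentiableAt
        (hball w hw).1).differentiableWithinAt
    have hd0 : ∀ w ∈ Metric.ball z0 r, fderivWithin ℂ (fun z => F z / G z)
        (Metric.ball z0 r) w = 0 := by
      intro w hw
      rw [fderivWithin_of_isOpen Metric.isOpen_ball hw]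
      have h3 : HasDerivAt (fun z => F z / G z) 0 w := by
        have h4 := (hF w (hball w hw).2).differentiableAt.hasDerivAt.div
          (hG w (hball w hw).2).differentiableAt.hasDerivAt (hball w hw).1
        have h5 : (deriv F w * G w - F w * deriv G w) / G w ^ 2 = 0 := by
          rw [h w (hball w hw).2, sub_self, zero_div]
        rw [h5] at h4
        exact h4
      have h6 := h3.hasFDerivAt.fderiv
      rw [h6]
      ext
      simp
    exact hconv.is_const_of_fderivWithin_eq_zero hd hd0 hz (Metric.mem_ball_self hr)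
  have h3 : F =ᶠ[𝓝 z0] fun z => F z0 / G z0 * G z := by
    filter_upwards [Metric.ball_mem_nhds z0 hr] with z hz
    rw [← h2 z hz, div_mul_cancel₀ _ (hball z hz).1]
  exact hF.eqOn_of_preconnected_of_eventuallyEq (analyticOnNhd_const.mul hG) hSc hz0 h3

/-- The holomorphic functions on `Ω` generated by the constants, sums, products, exponentials and
primitives. -/
inductive ExpPrim (Ω : Set ℂ) : (ℂ → ℂ) → Prop
  | const (c : ℂ) : ExpPrim Ω fun _ => c
  | add {f g : ℂ → ℂ} : ExpPrim Ω f → ExpPrim Ω g → ExpPrim Ω fun z => f z + g z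
  | mul {f g : ℂ → ℂ} : ExpPrim Ω f → ExpPrim Ω g → ExpPrim Ω fun z => f z * g z
  | exp {f : ℂ → ℂ} : ExpPrim Ω f → ExpPrim Ω fun z => Complex.exp (f z)
  | prim {f F : ℂ → ℂ} : ExpPrim Ω f → (∀ z ∈ Ω, HasDerivAt F (f z) z) → ExpPrim Ω F

theorem ExpPrim.an {Ω : Set ℂ} (hΩ : IsOpen Ω) {f : ℂ → ℂ} (h : ExpPrim Ω f) :
    AnalyticOnNhd ℂ f Ω := by
  induction h with
  | const c => exact analyticOnNhd_const
  | add _ _ h1 h2 => exact h1.add h2
  | mul _ _ h1 h2 => exact h1.mul h2
  | exp _ h1 => exact h1.cexp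
  | prim _ h2 _ =>
    exact (DifferentiableOn.analyticOnNhd (fun z hz =>
      (h2 z hz).differentiableAt.differentiableWithinAt) hΩ)

/-- the ambient differential field -/
structure Amb (Ω : Set ℂ) (K : Type) [Field K] [Algebra ℂ K] (D : Derivation ℂ K K)
    (A : Subalgebra ℂ K) (i : Hol Ω →ₐ[ℂ] K) : Prop where
  inj : Function.Injective i
  range : A = i.range
  der : ∀ (f F : ℂ → ℂ) (hf : AnalyticOnNhd ℂ f Ω) (hF : AnalyticOnNhd ℂ F Ω),
    (∀ z ∈ Ω, HasDerivAt F (f z) z) → D (i (toHol F hF)) = i (toHol f hf)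
  con : ∀ x, D x = 0 → ∃ c : ℂ, x = algebraMap ℂ K c
  exps : ∀ f ∈ A, ∃ s ∈ A, s⁻¹ ∈ A ∧ s ≠ 0 ∧ D s = D f * s

theorem exists_amb {Ω : Set ℂ} (hΩ : IsOpen Ω) (hΩc : IsPreconnected Ω) (hne : Ω.Nonempty) :
    ∃ (K : Type) (_ : Field K) (_ : Algebra ℂ K) (D : Derivation ℂ K K) (A : Subalgebra ℂ K)
      (i : Hol Ω →ₐ[ℂ] K), Amb Ω K D A i := by
  have hdom : IsDomain (Hol Ω) := hol_domain hΩc hne
  obtain ⟨d, hd⟩ := exists_holDer hΩ
  obtain ⟨D, hD⟩ := exists_derFrac d
  let K := FractionRing (Hol Ω)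
  let i : Hol Ω →ₐ[ℂ] K := IsScalarTower.toAlgHom ℂ (Hol Ω) K
  have hi : Function.Injective i := IsFractionRing.injective (Hol Ω) K
  have hDi : ∀ a, D (i a) = i (d a) := hD
  have hder : ∀ (f F : ℂ → ℂ) (hf : AnalyticOnNhd ℂ f Ω) (hF : AnalyticOnNhd ℂ F Ω),
      (∀ z ∈ Ω, HasDerivAt F (f z) z) → D (i (toHol F hF)) = i (toHol f hf) := by
    intro f F hf hF h
    rw [hDi]
    congr 1
    apply hol_ext
    intro z
    rw [hd (toHol F hF) F hF (fun z => rfl) z]
    exact (h z z.2).deriv
  refine ⟨K, inferInstance, inferInstance, D, i.range, i, hi, rfl, hder, ?_, ?_⟩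
  · intro x hx
    obtain ⟨a, b, hb, rfl⟩ := IsFractionRing.div_surjective (A := Hol Ω) x
    have hb0 : b ≠ 0 := nonZeroDivisors.ne_zero hb
    change D (i a / i b) = 0 at hx
    change ∃ c : ℂ, i a / i b = algebraMap ℂ K c
    have hib : i b ≠ 0 := by rwa [Ne, map_eq_zero_iff i hi]
    rw [Derivation.leibniz_div, hDi, hDi] at hx
    simp only [smul_eq_mul] at hx
    have h1 : i b * i (d a) - i a * i (d b) = 0 := by
      have h2 := (mul_eq_zero.1 hx).resolve_left (by simpa using hib)
      exact h2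
    rw [← map_mul, ← map_mul, ← map_sub, map_eq_zero_iff i hi] at h1
    obtain ⟨F, hF, hf⟩ := hol_an a
    obtain ⟨G, hG, hg⟩ := hol_an b
    obtain ⟨c, hc⟩ := wronskian_const hΩ hΩc hF hG (by
      by_contra hcon
      push Not at hcon
      apply hb0
      apply hol_ext
      intro z
      rw [hg, hcon z z.2, map_zero]) (by
      intro z hz
      have h2 := congrArg (evz ⟨z, hz⟩) h1
      rw [map_sub, map_mul, map_mul, map_zero, hd a F hF hf, hd b G hG hg, hf, hg] at h2
      change G z * deriv F z - F z * deriv G z = 0 at h2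
      linear_combination h2)
    refine ⟨c, ?_⟩
    rw [div_eq_iff hib, ← Algebra.smul_def, ← map_smul]
    congr 1
    apply hol_ext
    intro z
    rw [map_smul, hf, hg, smul_eq_mul]
    exact hc z z.2
  · rintro _ ⟨a, rfl⟩
    obtain ⟨F, hF, hf⟩ := hol_an a
    have ha : a = toHol F hF := hol_ext hf
    have hE : AnalyticOnNhd ℂ (fun z => Complex.exp (F z)) Ω := hF.cexp
    have hE' : AnalyticOnNhd ℂ (fun z => Complex.exp (-F z)) Ω := hF.neg.cexp
    have hinv : i (toHol _ hE) * i (toHol _ hE') = 1 := by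
      rw [← map_mul, ← map_one i]
      congr 1
      apply hol_ext
      intro z
      rw [map_mul, map_one, evz_toHol, evz_toHol, ← Complex.exp_add, add_neg_cancel,
        Complex.exp_zero]
    have h0 : i (toHol _ hE) ≠ 0 := left_ne_zero_of_mul_eq_one hinv
    refine ⟨i (toHol _ hE), ⟨_, rfl⟩, ?_, h0, ?_⟩
    · rw [← eq_inv_of_mul_eq_one_right hinv]
      exact ⟨_, rfl⟩
    · change _ = D (i a) * _
      rw [ha, hder (deriv F) F hF.deriv hF (fun z hz => (hF z hz).differentiableAt.hasDerivAt),
        hder (fun z => deriv F z * Complex.exp (F z)) _ (hF.deriv.mul hE) hE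
        (fun z hz => by
          have := ((hF z hz).differentiableAt.hasDerivAt).cexp
          rwa [mul_comm] at this), ← map_mul]
      rfl

end Pool.Agent.Y377.EL
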