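import Pool.Agent.Y377.EL.Fam

/-!
The Zariski closures of the curves given by exponentials and primitives.
-/

set_option autoImplicit false

namespace Pool.Agent.Y377.EL

open MvPolynomial Set Pool.Agent.TH143

section tower

variable {Ω : Set ℂ} {K : Type} [Field K] [Algebra ℂ K] {D : Derivation ℂ K K}
  {A : Subalgebra ℂ K} {i : Hol Ω →ₐ[ℂ] K}

theorem Amb.mem (h : Amb Ω K D A i) (a : Hol Ω) : i a ∈ A := by
  rw [h.range]
  exact ⟨a, rfl⟩

theorem Amb.step (h : Amb Ω K D A i) (hΩ : IsOpen Ω) {g : ℂ → ℂ} (hg : ExpPrim Ω g) :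
    ∀ R, Tower D A R → ∃ R', Tower D A R' ∧ R ≤ R' ∧
      ∀ hg' : AnalyticOnNhd ℂ g Ω, i (toHol g hg') ∈ R' := by
  induction hg with
  | const c =>
    intro R hR
    refine ⟨R, hR, le_rfl, fun _ => ?_⟩
    have h1 : toHol (S := Ω) (fun _ => c) analyticOnNhd_const = algebraMap ℂ (Hol Ω) c := rfl
    rw [h1, AlgHom.commutes]
    exact R.algebraMap_mem c
  | @add f g h1 h2 ih1 ih2 =>
    intro R hR
    obtain ⟨R1, t1, l1, m1⟩ := ih1 R hR
    obtain ⟨R2, t2, l2, m2⟩ := ih2 R1 t1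
    refine ⟨R2, t2, l1.trans l2, fun _ => ?_⟩
    have h3 := R2.add_mem (l2 (m1 (h1.an hΩ))) (m2 (h2.an hΩ))
    rw [← map_add] at h3
    exact h3
  | @mul f g h1 h2 ih1 ih2 =>
    intro R hR
    obtain ⟨R1, t1, l1, m1⟩ := ih1 R hR
    obtain ⟨R2, t2, l2, m2⟩ := ih2 R1 t1
    refine ⟨R2, t2, l1.trans l2, fun _ => ?_⟩
    have h3 := R2.mul_mem (l2 (m1 (h1.an hΩ))) (m2 (h2.an hΩ))
    rw [← map_mul] at h3
    exact h3
  | @exp f h1 ih1 =>
    intro R hR
    obtain ⟨R1, t1, l1, m1⟩ := ih1 R hR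
    have hF := h1.an hΩ
    have hE : AnalyticOnNhd ℂ (fun z => Complex.exp (f z)) Ω := hF.cexp
    have hE' : AnalyticOnNhd ℂ (fun z => Complex.exp (-f z)) Ω := hF.neg.cexp
    have hinv : i (toHol _ hE) * i (toHol _ hE') = 1 := by
      rw [← map_mul, ← map_one i]
      congr 1
      apply hol_ext
      intro z
      rw [map_mul, map_one, evz_toHol, evz_toHol, ← Complex.exp_add, add_neg_cancel,
        Complex.exp_zero]
    have hD : D (i (toHol _ hE)) = D (i (toHol f hF)) * i (toHol _ hE) := by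
      rw [h.der (deriv f) f hF.deriv hF (fun z hz => (hF z hz).differentiableAt.hasDerivAt),
        h.der (fun z => deriv f z * Complex.exp (f z)) _ (hF.deriv.mul hE) hE
        (fun z hz => by
          have := ((hF z hz).differentiableAt.hasDerivAt).cexp
          rwa [mul_comm] at this), ← map_mul]
      rfl
    have h0 : i (toHol _ hE) ≠ 0 := left_ne_zero_of_mul_eq_one hinv
    obtain ⟨R', t2, l2, m2⟩ := t1.ext_exp h.con h.exps (m1 hF) (h.mem _) (by
      rw [← eq_inv_of_mul_eq_one_right hinv]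
      exact h.mem _) h0 hD
    exact ⟨R', t2, l1.trans l2, fun _ => m2⟩
  | @prim f F h1 h2 ih1 =>
    intro R hR
    obtain ⟨R1, t1, l1, m1⟩ := ih1 R hR
    have hF : AnalyticOnNhd ℂ F Ω := (ExpPrim.prim h1 h2).an hΩ
    obtain ⟨R', t2, l2, m2⟩ := t1.ext_prim h.con (F := i (toHol F hF)) (h.mem _) (by
      rw [h.der f F (h1.an hΩ) hF h2]
      exact m1 _)
    exact ⟨R', t2, l1.trans l2, fun _ => m2⟩

theorem Amb.family (h : Amb Ω K D A i) (hΩ : IsOpen Ω) {N : ℕ} {f : Fin N → ℂ → ℂ}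
    (hf : ∀ j, ExpPrim Ω (f j)) :
    ∃ R, Tower D A R ∧ ∀ j, i (toHol (f j) ((hf j).an hΩ)) ∈ R := by
  induction N with
  | zero => exact ⟨⊥, Tower.bot, fun j => j.elim0⟩
  | succ N ih =>
    obtain ⟨R, t1, m1⟩ := ih (f := fun j => f j.castSucc) (fun j => hf j.castSucc)
    obtain ⟨R', t2, l2, m2⟩ := h.step hΩ (hf (Fin.last N)) R t1
    refine ⟨R', t2, fun j => ?_⟩
    induction j using Fin.lastCases with
    | last => exact m2 _
    | cast j => exact l2 (m1 j)

end tower

/-- vanishing along a curve and vanishing of the generic value -/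
theorem vanish_iff {Ω : Set ℂ} {K : Type} [Field K] [Algebra ℂ K] {i : Hol Ω →ₐ[ℂ] K}
    (hi : Function.Injective i) {N : ℕ} {f : ℂ → Fin N → ℂ}
    (hf : ∀ j, AnalyticOnNhd ℂ (fun z => f z j) Ω) (H : MvPolynomial (Fin N) ℂ) :
    aeval (fun j => i (toHol _ (hf j))) H = 0 ↔ ∀ z ∈ Ω, eval (f z) H = 0 := by
  have h1 : aeval (fun j => i (toHol _ (hf j))) H = i (aeval (fun j => toHol _ (hf j)) H) := by
    rw [← AlgHom.comp_apply]
    congr 1
    ext j
    simp
  have h2 : ∀ z : Ω, evz z (aeval (fun j => toHol _ (hf j)) H) = eval (f z) H := by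
    intro z
    have h3 : (evz z).comp (aeval (fun j => toHol _ (hf j))) = aeval (f z) := by
      ext j
      simp [evz_toHol]
    have h4 := congrArg (fun g => g H) h3
    simp only [AlgHom.comp_apply] at h4
    rw [h4, ← coe_aeval_eq_eval]
    rfl
  rw [h1, map_eq_zero_iff i hi]
  constructor
  · intro h z hz
    rw [← h2 ⟨z, hz⟩, h, map_zero]
  · intro h
    apply hol_ext
    intro z
    rw [h2, h z z.2, map_zero]

/-- **Structure of the curves given by exponentials and primitives.** -/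
theorem structure_thm {Ω : Set ℂ} (hΩ : IsOpen Ω) (hΩc : IsPreconnected Ω) (hne : Ω.Nonempty)
    {N : ℕ} {f : ℂ → Fin N → ℂ} (hf : ∀ j, ExpPrim Ω (fun z => f z j)) :
    ∃ (m : ℕ) (G : Fin N → MvPolynomial (Fin m) ℂ) (u : ℂ → Fin m → ℂ) (e : Fin m → ℕ),
      (∀ l, AnalyticOnNhd ℂ (fun z => u z l) Ω) ∧ (∀ l, e l ≠ 0 → ∀ z ∈ Ω, u z l ≠ 0) ∧
      (∀ j, ∀ z ∈ Ω, f z j * ∏ l, u z l ^ e l = eval (u z) (G j)) ∧
      (∀ P : MvPolynomial (Fin m) ℂ, (∀ z ∈ Ω, eval (u z) P = 0) → P = 0) := by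
  obtain ⟨K, _, _, D, A, i, h⟩ := exists_amb hΩ hΩc hne
  obtain ⟨R, t1, m1⟩ := h.family hΩ (f := fun j z => f z j) hf
  obtain ⟨ι, _, u, h1, h2, h3⟩ := t1.fam
  obtain ⟨e, G, h4, h5⟩ := common (fun j => h3 (m1 j))
  let q := Fintype.equivFin ι
  have hu : ∀ l : Fin (Fintype.card ι), ∃ (F : ℂ → ℂ) (hF : AnalyticOnNhd ℂ F Ω),
      u (q.symm l) = i (toHol F hF) := by
    intro l
    have h6 := t1.le (h2 (q.symm l))
    rw [h.range] at h6
    obtain ⟨a, ha⟩ := h6
    obtain ⟨F, hF, hf⟩ := hol_an a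
    have ha' : a = toHol F hF := hol_ext hf
    exact ⟨F, hF, by rw [← ha', ← ha]; rfl⟩
  choose U hU hU2 using hu
  have hUi : (fun l => i (toHol (U l) (hU l))) = u ∘ q.symm := by
    funext l
    rw [← hU2]
    rfl
  have hvan : ∀ P : MvPolynomial (Fin (Fintype.card ι)) ℂ,
      aeval (u ∘ q.symm) P = 0 ↔ ∀ z ∈ Ω, eval (fun l => U l z) P = 0 := by
    intro P
    rw [← hUi]
    exact vanish_iff h.inj (f := fun z l => U l z) hU P
  have hindep : AlgebraicIndependent ℂ (u ∘ q.symm) :=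
    h1.comp q.symm q.symm.injective
  refine ⟨Fintype.card ι, fun j => rename q (G j), fun z l => U l z, e ∘ q.symm, hU, ?_, ?_, ?_⟩
  · intro l hl z hz h0
    have h6 := h4 (q.symm l) hl
    have h7 := t1.le h6
    rw [h.range] at h7
    obtain ⟨a, ha⟩ := h7
    have hne0 : u (q.symm l) ≠ 0 := h1.ne_zero _
    have h8 : i (toHol (U l) (hU l)) * i a = 1 := by
      rw [← hU2]
      change u (q.symm l) * i.toRingHom a = 1
      rw [show i.toRingHom a = (u (q.symm l))⁻¹ from ha, mul_inv_cancel₀ hne0]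
    rw [← map_mul, ← map_one i] at h8
    have h9 := congrArg (evz ⟨z, hz⟩) (h.inj h8)
    rw [map_mul, map_one, evz_toHol] at h9
    change U l z * _ = 1 at h9
    change U l z = 0 at h0
    rw [h0, zero_mul] at h9
    exact zero_ne_one h9
  · intro j
    have h6 := h5 j
    -- an equation in `N + m` functions
    have hprod : (∏ l, u l ^ e l) = ∏ l, (u ∘ q.symm) l ^ (e ∘ q.symm) l :=
      (Equiv.prod_comp q.symm fun l => u l ^ e l).symm
    have hG : aeval u (G j) = aeval (u ∘ q.symm) (rename q (G j)) := by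
      rw [aeval_rename]
      congr 1
      congr 1
      funext l
      simp
    rw [hprod, hG, ← hUi] at h6
    have h7 : i (toHol _ ((hf j).an hΩ) * ∏ l, toHol (U l) (hU l) ^ (e ∘ q.symm) l) =
        i (aeval (fun l => toHol (U l) (hU l)) (rename q (G j))) := by
      rw [map_mul, map_prod]
      simp only [map_pow]
      have h3 : i.comp (aeval (fun l => toHol (U l) (hU l))) =
          (aeval (fun l => i (toHol (U l) (hU l))) :
            MvPolynomial (Fin (Fintype.card ι)) ℂ →ₐ[ℂ] K) := by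
        apply MvPolynomial.algHom_ext
        intro l
        simp
      exact h6.trans (congrArg (fun g => g (rename q (G j))) h3).symm
    have h8 := h.inj h7
    intro z hz
    have h9 := congrArg (evz ⟨z, hz⟩) h8
    rw [map_mul, map_prod] at h9
    simp only [map_pow, evz_toHol] at h9
    rw [h9]
    have h3 : (evz ⟨z, hz⟩).comp (aeval (fun l => toHol (U l) (hU l))) =
        (aeval (fun l => U l z) : MvPolynomial (Fin (Fintype.card ι)) ℂ →ₐ[ℂ] ℂ) := by
      apply MvPolynomial.algHom_ext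
      intro l
      simp [evz_toHol]
    have h4 := congrArg (fun g => g (rename q (G j))) h3
    simp only [AlgHom.comp_apply] at h4
    rw [h4, ← coe_aeval_eq_eval]
    rfl
  · intro P hP
    have h6 := (hvan P).2 hP
    exact hindep (h6.trans (map_zero _).symm)

end Pool.Agent.Y377.EL
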